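import Pool.Agent.Helper15.T4.Stmts

set_option autoImplicit false

/-!
Module IA of the project MP_e0a484_co (blueprint of helper15): the bound for the trilinear form of the
first model at complex vectors.
-/

open Finset MeasureTheory Filter Topology

namespace Pool.Agent.Helper14.T4

open Pool.Agent.Helper15.T4

/-- The 24 ordered triples of labels at a vertex. -/
def tr24 : Fin 24 → L1 × L1 × L1 := fun i =>
  (![((1, 0), (2, 0), (3, 0)), ((1, 0), (3, 0), (2, 0)), ((2, 0), (1, 0), (3, 0)),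
    ((2, 0), (3, 0), (1, 0)), ((3, 0), (1, 0), (2, 0)), ((3, 0), (2, 0), (1, 0)),
    ((0, 0), (2, 1), (3, 1)), ((0, 0), (3, 1), (2, 1)), ((2, 1), (0, 0), (3, 1)),
    ((2, 1), (3, 1), (0, 0)), ((3, 1), (0, 0), (2, 1)), ((3, 1), (2, 1), (0, 0)),
    ((0, 1), (1, 1), (3, 2)), ((0, 1), (3, 2), (1, 1)), ((1, 1), (0, 1), (3, 2)),
    ((1, 1), (3, 2), (0, 1)), ((3, 2), (0, 1), (1, 1)), ((3, 2), (1, 1), (0, 1)),
    ((0, 2), (1, 2), (2, 2)), ((0, 2), (2, 2), (1, 2)), ((1, 2), (0, 2), (2, 2)),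
    ((1, 2), (2, 2), (0, 2)), ((2, 2), (0, 2), (1, 2)), ((2, 2), (1, 2), (0, 2))] :
    Fin 24 → L1 × L1 × L1) i

theorem tr24_inj : Function.Injective tr24 := by decide

theorem filter24 : (univ : Finset (L1 × L1 × L1)).filter (fun t =>
    t.1.1 ≠ t.2.1.1 ∧ t.1.1 ≠ t.2.2.1 ∧ t.2.1.1 ≠ t.2.2.1 ∧
    t.1.1.succAbove t.1.2 = t.2.1.1.succAbove t.2.1.2 ∧
    t.1.1.succAbove t.1.2 = t.2.2.1.succAbove t.2.2.2) = univ.image tr24 := by
  decide

theorem sum24 (g : L1 → ℂ) : ∑ a : L1, ∑ b : L1, ∑ c : L1, ((w1 a b c : ℝ) : ℂ) * g a * g b * g c =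
    6 * (g (1, 0) * g (2, 0) * g (3, 0) + g (0, 0) * g (2, 1) * g (3, 1) +
      g (0, 1) * g (1, 1) * g (3, 2) + g (0, 2) * g (1, 2) * g (2, 2)) := by
  have h1 : ∑ a : L1, ∑ b : L1, ∑ c : L1, ((w1 a b c : ℝ) : ℂ) * g a * g b * g c =
      ∑ t : L1 × L1 × L1, ((w1 t.1 t.2.1 t.2.2 : ℝ) : ℂ) * g t.1 * g t.2.1 * g t.2.2 := by
    symm
    refine (Fintype.sum_prod_type (α₁ := L1) (α₂ := L1 × L1) _).trans ?_
    refine Finset.sum_congr rfl fun a _ => ?_
    exact Fintype.sum_prod_type (α₁ := L1) (α₂ := L1) _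
  have h2 : ∀ t : L1 × L1 × L1, ((w1 t.1 t.2.1 t.2.2 : ℝ) : ℂ) * g t.1 * g t.2.1 * g t.2.2 =
      if (t.1.1 ≠ t.2.1.1 ∧ t.1.1 ≠ t.2.2.1 ∧ t.2.1.1 ≠ t.2.2.1 ∧
        t.1.1.succAbove t.1.2 = t.2.1.1.succAbove t.2.1.2 ∧
        t.1.1.succAbove t.1.2 = t.2.2.1.succAbove t.2.2.2) then g t.1 * g t.2.1 * g t.2.2
      else 0 := by
    intro t
    unfold w1 vc
    by_cases h : (t.1.1 ≠ t.2.1.1 ∧ t.1.1 ≠ t.2.2.1 ∧ t.2.1.1 ≠ t.2.2.1 ∧
        t.1.1.succAbove t.1.2 = t.2.1.1.succAbove t.2.1.2 ∧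
        t.1.1.succAbove t.1.2 = t.2.2.1.succAbove t.2.2.2)
    · rw [if_pos h, if_pos h]
      push_cast
      ring
    · rw [if_neg h, if_neg h]
      push_cast
      ring
  rw [h1, Finset.sum_congr rfl (fun t _ => h2 t), ← Finset.sum_filter, filter24,
    Finset.sum_image (fun a _ b _ h => tr24_inj h)]
  simp only [Fin.sum_univ_succ, Fin.sum_univ_zero, tr24, Matrix.cons_val_zero, Matrix.cons_val_succ,
    Matrix.cons_val_fin_one]
  ring

/-- The mean of a row. -/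
noncomputable def mean (z : L1 → ℂ) (d : Fin 4) : ℂ := (z (d, 0) + z (d, 1) + z (d, 2)) / 3

theorem lc_eq (z : L1 → ℂ) (d : Fin 4) (j : Fin 3) :
    m1.lc (d, j) z = (Real.sqrt 2 : ℂ) * mean z d + Complex.I * (z (d, j) - mean z d) := by
  unfold Mdl.lc mean
  rw [Fintype.sum_prod_type, Finset.sum_eq_single d]
  · rw [Fin.sum_univ_three]
    fin_cases j <;> simp [m1, S1] <;> ring
  · intro d' _ hd
    refine Finset.sum_eq_zero fun j' _ => ?_
    simp [m1, S1, Ne.symm hd]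
  · intro h
    exact absurd (Finset.mem_univ d) h

theorem nlc (z : L1 → ℂ) (d : Fin 4) (j : Fin 3) :
    ‖m1.lc (d, j) z‖ ^ 2 =
      (Real.sqrt 2 * (mean z d).re - ((z (d, j)).im - (mean z d).im)) ^ 2 +
      (Real.sqrt 2 * (mean z d).im + ((z (d, j)).re - (mean z d).re)) ^ 2 := by
  rw [lc_eq, Complex.sq_norm, Complex.normSq_apply]
  simp only [Complex.add_re, Complex.mul_re, Complex.ofReal_re, Complex.ofReal_im, Complex.I_re,
    Complex.I_im, Complex.sub_re, Complex.sub_im, Complex.add_im, Complex.mul_im]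
  ring

theorem IA (hROWA : ST_ROWA) (hHOLD : ST_HOLD) : ST_IA := by
  intro z
  set g : Fin 4 → Fin 3 → ℂ := fun d j => m1.lc (d, j) z with hg
  have hTc : m1.Tc z z z = 6 * (g 1 0 * g 2 0 * g 3 0 + g 0 0 * g 2 1 * g 3 1 +
      g 0 1 * g 1 1 * g 3 2 + g 0 2 * g 1 2 * g 2 2) := sum24 (fun a => m1.lc a z)
  set X : Fin 4 → ℝ := fun d => ∑ j, (z (d, j)).re ^ 2 + 8 / 5 * ∑ j, (z (d, j)).im ^ 2 with hX
  have hS : ncq z = ∑ d, X d := by
    unfold ncq
    rw [hX, Fintype.sum_prod_type, Fintype.sum_prod_type, Finset.sum_add_distrib, Finset.mul_sum]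
  have hX0 : ∀ d, 0 ≤ X d := fun d => by
    rw [hX]
    positivity
  have hmre : ∀ d, (mean z d).re = ((z (d, 0)).re + (z (d, 1)).re + (z (d, 2)).re) / 3 := by
    intro d
    unfold mean
    have : ((3 : ℂ)) = ((3 : ℝ) : ℂ) := by norm_num
    rw [this, Complex.div_ofReal_re]
    simp
  have hmim : ∀ d, (mean z d).im = ((z (d, 0)).im + (z (d, 1)).im + (z (d, 2)).im) / 3 := by
    intro d
    unfold mean
    have : ((3 : ℂ)) = ((3 : ℝ) : ℂ) := by norm_num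
    rw [this, Complex.div_ofReal_im]
    simp
  have hrow : ∀ d, ∑ j, (‖g d j‖ ^ 2) ^ 2 ≤ 4 / 3 * X d ^ 2 ∧
      (∑ j, (‖g d j‖ ^ 2) ^ 2 = 4 / 3 * X d ^ 2 → (mean z d).im = 0 ∧
        (∀ j, (z (d, j)).re = (mean z d).re) ∧ ∀ j, (z (d, j)).im = (mean z d).im) := by
    intro d
    have h := hROWA (mean z d).re (mean z d).im (fun j => (z (d, j)).re - (mean z d).re)
      (fun j => (z (d, j)).im - (mean z d).im)
      (by rw [Fin.sum_univ_three, hmre]; ring) (by rw [Fin.sum_univ_three, hmim]; ring)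
    have e1 : 3 * (mean z d).re ^ 2 + ∑ j, ((z (d, j)).re - (mean z d).re) ^ 2 +
        8 / 5 * (3 * (mean z d).im ^ 2 + ∑ j, ((z (d, j)).im - (mean z d).im) ^ 2) = X d := by
      rw [hX]
      simp only [Fin.sum_univ_three]
      rw [hmre, hmim]
      ring
    have e2 : ∑ j, (‖g d j‖ ^ 2) ^ 2 = ∑ j, ((Real.sqrt 2 * (mean z d).re -
        ((z (d, j)).im - (mean z d).im)) ^ 2 + (Real.sqrt 2 * (mean z d).im +
        ((z (d, j)).re - (mean z d).re)) ^ 2) ^ 2 := by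
      refine Finset.sum_congr rfl fun j _ => ?_
      rw [hg]
      simp only []
      rw [nlc]
    rw [e2]
    rw [e1] at h
    refine ⟨h.1, fun he => ?_⟩
    obtain ⟨h1, h2, h3⟩ := h.2 he
    refine ⟨h1, fun j => ?_, fun j => ?_⟩
    · have := congrFun h2 j
      simp only [Pi.zero_apply] at this
      linarith
    · have := congrFun h3 j
      simp only [Pi.zero_apply] at this
      linarith
  set m : Fin 4 → Fin 4 → ℝ := ![![0, ‖g 0 0‖, ‖g 0 1‖, ‖g 0 2‖], ![‖g 1 0‖, 0, ‖g 1 1‖, ‖g 1 2‖],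
    ![‖g 2 0‖, ‖g 2 1‖, 0, ‖g 2 2‖], ![‖g 3 0‖, ‖g 3 1‖, ‖g 3 2‖, 0]] with hm
  have hm0 : ∀ d c, 0 ≤ m d c := by
    intro d c
    rw [hm]
    fin_cases d <;> fin_cases c <;> simp
  have hms : ∀ d, ∑ c ∈ univ.erase d, m d c ^ 4 = ∑ j, (‖g d j‖ ^ 2) ^ 2 := by
    intro d
    rw [Finset.sum_erase_eq_sub (Finset.mem_univ d), Fin.sum_univ_four, Fin.sum_univ_three, hm]
    fin_cases d <;> simp <;> ring
  have hmp : ∑ c, ∏ d ∈ univ.erase c, m d c = ‖g 1 0‖ * ‖g 2 0‖ * ‖g 3 0‖ +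
      ‖g 0 0‖ * ‖g 2 1‖ * ‖g 3 1‖ + ‖g 0 1‖ * ‖g 1 1‖ * ‖g 3 2‖ + ‖g 0 2‖ * ‖g 1 2‖ * ‖g 2 2‖ := by
    have e0 : (univ.erase (0 : Fin 4)) = {1, 2, 3} := by decide
    have e1 : (univ.erase (1 : Fin 4)) = {0, 2, 3} := by decide
    have e2 : (univ.erase (2 : Fin 4)) = {0, 1, 3} := by decide
    have e3 : (univ.erase (3 : Fin 4)) = {0, 1, 2} := by decide
    rw [Fin.sum_univ_four, e0, e1, e2, e3, Finset.prod_insert (by decide),
      Finset.prod_insert (by decide), Finset.prod_singleton, Finset.prod_insert (by decide),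
      Finset.prod_insert (by decide), Finset.prod_singleton, Finset.prod_insert (by decide),
      Finset.prod_insert (by decide), Finset.prod_singleton, Finset.prod_insert (by decide),
      Finset.prod_insert (by decide), Finset.prod_singleton, hm]
    simp
    ring
  have hH := hHOLD m X hm0 hX0 (fun d => by rw [hms]; exact (hrow d).1)
  set K : ℝ := ∑ c, ∏ d ∈ univ.erase c, m d c with hK
  have hTK : ‖m1.Tc z z z‖ ≤ 6 * K := by
    rw [hTc, hmp, norm_mul]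
    have h6 : ‖(6 : ℂ)‖ = 6 := by simp
    rw [h6]
    refine mul_le_mul_of_nonneg_left ?_ (by norm_num)
    refine (norm_add_le _ _).trans ?_
    rw [norm_mul, norm_mul]
    refine add_le_add ?_ (le_refl _)
    refine (norm_add_le _ _).trans ?_
    rw [norm_mul, norm_mul]
    refine add_le_add ?_ (le_refl _)
    refine (norm_add_le _ _).trans ?_
    rw [norm_mul, norm_mul, norm_mul, norm_mul]
  have hT2 : ‖m1.Tc z z z‖ ^ 2 ≤ 36 * K ^ 2 := by
    have := pow_le_pow_left₀ (norm_nonneg _) hTK 2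
    calc _ ≤ (6 * K) ^ 2 := this
      _ = 36 * K ^ 2 := by ring
  rw [hS]
  refine ⟨by linarith [hH.1], fun he => ?_⟩
  have hK2 : K ^ 2 = 2 / 27 * (∑ d, X d) ^ 3 := by
    refine le_antisymm hH.1 ?_
    linarith
  have hq := hH.2 hK2
  have hd : ∀ d, (mean z d).im = 0 ∧
        (∀ j, (z (d, j)).re = (mean z d).re) ∧ ∀ j, (z (d, j)).im = (mean z d).im := by
    intro d
    refine (hrow d).2 ?_
    rw [← hms]
    exact (hq d).2
  set x : Fin 4 → ℝ := fun d => (mean z d).re with hx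
  have hmx : ∀ d, mean z d = (x d : ℂ) := fun d =>
    Complex.ext (by simp [hx]) (by rw [Complex.ofReal_im]; exact (hd d).1)
  have hz : ∀ d j, z (d, j) = (x d : ℂ) := fun d j =>
    Complex.ext (by rw [Complex.ofReal_re]; exact (hd d).2.1 j)
      (by rw [Complex.ofReal_im, (hd d).2.2 j]; exact (hd d).1)
  have hgx : ∀ d j, g d j = (Real.sqrt 2 : ℂ) * (x d : ℂ) := by
    intro d j
    rw [hg]
    simp only []
    rw [lc_eq, hz, hmx]
    ring
  have hXx : ∀ d, X d = 3 * x d ^ 2 := by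
    intro d
    rw [hX]
    simp only [hz, Complex.ofReal_re, Complex.ofReal_im, Fin.sum_univ_three]
    ring
  have hxx : ∀ d, x d ^ 2 = x 0 ^ 2 := by
    intro d
    have h1 := (hq d).1
    have h2 := (hq 0).1
    rw [hXx] at h1 h2
    linarith
  set e3 : ℝ := x 1 * x 2 * x 3 + x 0 * x 2 * x 3 + x 0 * x 1 * x 3 + x 0 * x 1 * x 2 with he3
  have hTe : m1.Tc z z z = ((6 * Real.sqrt 2 ^ 3 * e3 : ℝ) : ℂ) := by
    rw [hTc]
    simp only [hgx]
    rw [he3]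
    push_cast
    ring
  have hsum : ∑ d, X d = 12 * x 0 ^ 2 := by
    rw [Fin.sum_univ_four, hXx, hXx, hXx, hXx, hxx 1, hxx 2, hxx 3]
    ring
  have h16 : e3 ^ 2 = 16 * x 0 ^ 6 := by
    rw [hTe, Complex.norm_real, Real.norm_eq_abs, sq_abs, hsum] at he
    have h2 : Real.sqrt 2 ^ 2 = 2 := Real.sq_sqrt (by norm_num)
    have h6 : (6 * Real.sqrt 2 ^ 3 * e3) ^ 2 = 36 * (Real.sqrt 2 ^ 2) ^ 3 * e3 ^ 2 := by ring
    rw [h6, h2] at he
    nlinarith
  have hall : x 1 = x 0 ∧ x 2 = x 0 ∧ x 3 = x 0 := by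
    have c1 := sq_eq_sq_iff_eq_or_eq_neg.mp (hxx 1)
    have c2 := sq_eq_sq_iff_eq_or_eq_neg.mp (hxx 2)
    have c3 := sq_eq_sq_iff_eq_or_eq_neg.mp (hxx 3)
    have hz0 : x 0 ^ 6 = 0 → x 1 = x 0 ∧ x 2 = x 0 ∧ x 3 = x 0 := by
      intro h
      have h0 : x 0 = 0 := pow_eq_zero_iff (by norm_num) |>.mp h
      rw [h0] at c1 c2 c3
      rw [h0]
      refine ⟨?_, ?_, ?_⟩
      · rcases c1 with c | c <;> simp [c]
      · rcases c2 with c | c <;> simp [c]
      · rcases c3 with c | c <;> simp [c]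
    rw [he3] at h16
    rcases c1 with c1 | c1 <;> rcases c2 with c2 | c2 <;> rcases c3 with c3 | c3
    · exact ⟨c1, c2, c3⟩
    all_goals
      apply hz0
      rw [c1, c2, c3] at h16
      ring_nf at h16
      linarith
  refine ⟨x 0, ?_⟩
  funext p
  obtain ⟨d, j⟩ := p
  rw [hz]
  fin_cases d
  · rfl
  · show ((x 1 : ℝ) : ℂ) = _
    rw [hall.1]
  · show ((x 2 : ℝ) : ℂ) = _
    rw [hall.2.1]
  · show ((x 3 : ℝ) : ℂ) = _
    rw [hall.2.2]

end Pool.Agent.Helper14.T4
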