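import Pool.Agent.Helper15.T4.Stmts

set_option autoImplicit false

/-!
Module MPK of the project MP_e0a484_co (blueprint of helper15): a model with a unique peak satisfies the
hypotheses of the Laplace method.
-/

open Finset MeasureTheory Filter Topology

namespace Pool.Agent.Helper14.T4

open Pool.Agent.Helper15.T4

section

variable {L ι : Type} [Fintype L] [Fintype ι] (m : Mdl L ι)

omit [Fintype L] in
theorem l_add (a : L) (x y : ι → ℝ) : m.l a (x + y) = m.l a x + m.l a y := by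
  unfold Mdl.l
  rw [← Finset.sum_add_distrib]
  refine Finset.sum_congr rfl fun i _ => ?_
  rw [Pi.add_apply]
  push_cast
  ring

omit [Fintype L] in
theorem l_smul (a : L) (s : ℝ) (x : ι → ℝ) : m.l a (s • x) = (s : ℂ) * m.l a x := by
  unfold Mdl.l
  rw [Finset.mul_sum]
  refine Finset.sum_congr rfl fun i _ => ?_
  rw [Pi.smul_apply, smul_eq_mul]
  push_cast
  ring

theorem T_add1 (x x' y z : ι → ℝ) : m.T (x + x') y z = m.T x y z + m.T x' y z := by
  unfold Mdl.T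
  rw [← Finset.sum_add_distrib]
  refine Finset.sum_congr rfl fun a _ => ?_
  rw [← Finset.sum_add_distrib]
  refine Finset.sum_congr rfl fun b _ => ?_
  rw [← Finset.sum_add_distrib]
  refine Finset.sum_congr rfl fun c _ => ?_
  rw [l_add]
  ring

theorem T_smul3 (s : ℝ) (x y z : ι → ℝ) :
    m.T (s • x) (s • y) (s • z) = (s : ℂ) ^ 3 * m.T x y z := by
  unfold Mdl.T
  rw [Finset.mul_sum]
  refine Finset.sum_congr rfl fun a _ => ?_
  rw [Finset.mul_sum]
  refine Finset.sum_congr rfl fun b _ => ?_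
  rw [Finset.mul_sum]
  refine Finset.sum_congr rfl fun c _ => ?_
  rw [l_smul, l_smul, l_smul]
  ring

theorem T_smul2 (s : ℝ) (x y z : ι → ℝ) :
    m.T x (s • y) (s • z) = (s : ℂ) ^ 2 * m.T x y z := by
  unfold Mdl.T
  rw [Finset.mul_sum]
  refine Finset.sum_congr rfl fun a _ => ?_
  rw [Finset.mul_sum]
  refine Finset.sum_congr rfl fun b _ => ?_
  rw [Finset.mul_sum]
  refine Finset.sum_congr rfl fun c _ => ?_
  rw [l_smul, l_smul]
  ring

variable {m}

theorem T_swap12 (hS : m.Symm) (x y z : ι → ℝ) : m.T x y z = m.T y x z := by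
  unfold Mdl.T
  rw [Finset.sum_comm]
  refine Finset.sum_congr rfl fun a _ => ?_
  refine Finset.sum_congr rfl fun b _ => ?_
  refine Finset.sum_congr rfl fun c _ => ?_
  rw [(hS b a c).1]
  ring

theorem T_swap23 (hS : m.Symm) (x y z : ι → ℝ) : m.T x y z = m.T x z y := by
  unfold Mdl.T
  refine Finset.sum_congr rfl fun a _ => ?_
  rw [Finset.sum_comm]
  refine Finset.sum_congr rfl fun b _ => ?_
  refine Finset.sum_congr rfl fun c _ => ?_
  rw [(hS a c b).2]
  ring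

theorem P_add (hS : m.Symm) (u h : ι → ℝ) :
    m.P (u + h) = m.T u u u + 3 * m.T u u h + 3 * m.T u h h + m.T h h h := by
  have e2 : ∀ x y y' z : ι → ℝ, m.T x (y + y') z = m.T x y z + m.T x y' z := by
    intro x y y' z
    rw [T_swap12 hS, T_add1, T_swap12 hS y, T_swap12 hS y']
  have e3 : ∀ x y z z' : ι → ℝ, m.T x y (z + z') = m.T x y z + m.T x y z' := by
    intro x y z z'
    rw [T_swap23 hS, e2, T_swap23 hS x z, T_swap23 hS x z']
  unfold Mdl.P
  rw [T_add1, e2, e2, e3, e3, e3, e3]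
  have h1 : m.T u h u = m.T u u h := T_swap23 hS u h u
  have h2 : m.T h u u = m.T u u h := by rw [T_swap12 hS, h1]
  have h3 : m.T h u h = m.T u h h := T_swap12 hS h u h
  have h4 : m.T h h u = m.T u h h := by rw [T_swap23 hS, h3]
  rw [h1, h2, h3, h4]
  ring

theorem abs_le_sqrt_nsq (x : ι → ℝ) (i : ι) : |x i| ≤ Real.sqrt (nsq x) := by
  apply Real.abs_le_sqrt
  unfold nsq
  exact Finset.single_le_sum (f := fun i => x i ^ 2) (fun j _ => sq_nonneg _) (Finset.mem_univ i)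

variable (m)

theorem l_bound : ∃ K : ℝ, 0 ≤ K ∧ ∀ (a : L) (x : ι → ℝ), ‖m.l a x‖ ≤ K * Real.sqrt (nsq x) := by
  refine ⟨∑ a, ∑ i, ‖m.S a i‖, by positivity, ?_⟩
  intro a x
  unfold Mdl.l
  calc ‖∑ i, m.S a i * (x i : ℂ)‖ ≤ ∑ i, ‖m.S a i * (x i : ℂ)‖ := norm_sum_le _ _
    _ ≤ ∑ i, ‖m.S a i‖ * Real.sqrt (nsq x) := by
        refine Finset.sum_le_sum fun i _ => ?_
        rw [norm_mul, Complex.norm_real, Real.norm_eq_abs]
        exact mul_le_mul_of_nonneg_left (abs_le_sqrt_nsq x i) (norm_nonneg _)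
    _ = (∑ i, ‖m.S a i‖) * Real.sqrt (nsq x) := by rw [Finset.sum_mul]
    _ ≤ (∑ a, ∑ i, ‖m.S a i‖) * Real.sqrt (nsq x) := by
        refine mul_le_mul_of_nonneg_right ?_ (Real.sqrt_nonneg _)
        exact Finset.single_le_sum (f := fun a => ∑ i, ‖m.S a i‖)
          (fun j _ => Finset.sum_nonneg fun i _ => norm_nonneg _) (Finset.mem_univ a)

theorem T_bound : ∃ C : ℝ, 0 ≤ C ∧ ∀ x y z : ι → ℝ,
    ‖m.T x y z‖ ≤ C * (Real.sqrt (nsq x) * Real.sqrt (nsq y) * Real.sqrt (nsq z)) := by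
  obtain ⟨K, hK, hl⟩ := l_bound m
  refine ⟨∑ a, ∑ b, ∑ c, |m.w a b c| * K ^ 3, by positivity, ?_⟩
  intro x y z
  unfold Mdl.T
  rw [Finset.sum_mul]
  refine (norm_sum_le _ _).trans (Finset.sum_le_sum fun a _ => ?_)
  rw [Finset.sum_mul]
  refine (norm_sum_le _ _).trans (Finset.sum_le_sum fun b _ => ?_)
  rw [Finset.sum_mul]
  refine (norm_sum_le _ _).trans (Finset.sum_le_sum fun c _ => ?_)
  rw [norm_mul, norm_mul, norm_mul, Complex.norm_real, Real.norm_eq_abs]
  have h1 := hl a x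
  have h2 := hl b y
  have h3 := hl c z
  have hx := Real.sqrt_nonneg (nsq x)
  have hy := Real.sqrt_nonneg (nsq y)
  have hz := Real.sqrt_nonneg (nsq z)
  calc |m.w a b c| * ‖m.l a x‖ * ‖m.l b y‖ * ‖m.l c z‖
      ≤ |m.w a b c| * (K * Real.sqrt (nsq x)) * (K * Real.sqrt (nsq y)) *
          (K * Real.sqrt (nsq z)) := by gcongr
    _ = |m.w a b c| * K ^ 3 * (Real.sqrt (nsq x) * Real.sqrt (nsq y) * Real.sqrt (nsq z)) := by
        ring

end

theorem MPK : ST_MPK := by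
  intro L ι _ _ m u q hS hu hq hT hle heq hpos
  have hnn : ∀ x : ι → ℝ, 0 ≤ nsq x := fun x => Finset.sum_nonneg fun i _ => sq_nonneg _
  have huu : (∑ i, u i * u i) = 1 := by
    rw [← hu]
    unfold nsq
    exact Finset.sum_congr rfl fun i _ => (sq (u i)).symm
  have hPu : m.P u = (q : ℂ) := by
    unfold Mdl.P
    rw [hT u, huu]
    simp
  refine ⟨?_, ?_, hu, hq, hPu, hle, heq, ?_, ?_, hpos, ?_⟩
  · unfold Mdl.P Mdl.T Mdl.l
    fun_prop
  · intro s x
    exact T_smul3 m s x x x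
  · unfold QT nsq Mdl.T Mdl.l
    fun_prop
  · intro s x
    unfold QT
    rw [T_smul2]
    have h1 : nsq (s • x) = s ^ 2 * nsq x := by
      unfold nsq
      rw [Finset.mul_sum]
      exact Finset.sum_congr rfl fun i _ => by rw [Pi.smul_apply, smul_eq_mul]; ring
    have h2 : (∑ i, u i * (s • x) i) = s * ∑ i, u i * x i := by
      rw [Finset.mul_sum]
      exact Finset.sum_congr rfl fun i _ => by rw [Pi.smul_apply, smul_eq_mul]; ring
    rw [h1, h2]
    push_cast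
    ring
  · obtain ⟨C, hC, hTb⟩ := T_bound m
    have hqc : (q : ℂ) ≠ 0 := by exact_mod_cast hq.ne'
    set K0 : ℝ := Real.exp (9 / 2) with hK0
    have hK0p : 0 < K0 := Real.exp_pos _
    refine ⟨9 / 8 + 3 / 2 * (9 / 2) ^ 2 + 4 * (K0 * (9 / 2) ^ 3) + 3 * (C / q) * (9 / 2 * K0) +
      C / q * K0, ?_⟩
    intro h hh
    set N : ℝ := Real.sqrt (nsq h) with hN
    have hN0 : 0 ≤ N := Real.sqrt_nonneg _
    have hN2 : N ^ 2 = nsq h := Real.sq_sqrt (hnn h)
    have hN1 : N ≤ 1 := by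
      rw [hN]
      exact Real.sqrt_le_one.mpr hh
    set a : ℝ := ∑ i, u i * h i with ha
    have haN : |a| ≤ N := by
      apply Real.abs_le_sqrt
      have h1 := Finset.sum_mul_sq_le_sq_mul_sq (Finset.univ) u h
      have h2 : ∑ i, u i ^ 2 = 1 := hu
      rw [h2, one_mul] at h1
      exact h1
    have hnuh : nsq (u + h) = 1 + 2 * a + N ^ 2 := by
      rw [hN2, ← hu, ha]
      unfold nsq
      rw [Finset.mul_sum, ← Finset.sum_add_distrib, ← Finset.sum_add_distrib]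
      exact Finset.sum_congr rfl fun i _ => by rw [Pi.add_apply]; ring
    have hP : m.P (u + h) = q + 3 * (q * a) + 3 * m.T u h h + m.T h h h := by
      rw [P_add hS, hT u, hT h, huu, ← ha]
      push_cast
      ring
    set y : ℝ := -3 * a - 3 / 2 * N ^ 2 with hy
    have hE : -(3 / 2) * (nsq (u + h) - 1) = y := by
      rw [hnuh, hy]
      ring
    rw [hE]
    have hNN : N ^ 2 ≤ N := by nlinarith
    have hyN : |y| ≤ 9 / 2 * N := by
      rw [abs_le] at haN ⊢
      constructor <;> nlinarith [haN.1, haN.2]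
    have hy9 : |y| ≤ 9 / 2 := by nlinarith
    have hexp : Real.exp |y| ≤ K0 := Real.exp_le_exp.mpr hy9
    have hEK : Real.exp y ≤ K0 := (Real.exp_le_exp.mpr (le_abs_self y)).trans hexp
    have hr3 : |Real.exp y - (1 + y + y ^ 2 / 2)| ≤ K0 * (9 / 2) ^ 3 * N ^ 3 := by
      have h1 := Complex.norm_exp_sub_sum_le_norm_mul_exp (y : ℂ) 3
      have h2 : Complex.exp (y : ℂ) - ∑ k ∈ range 3, (y : ℂ) ^ k / (k.factorial : ℂ) =
          ((Real.exp y - (1 + y + y ^ 2 / 2) : ℝ) : ℂ) := by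
        simp only [Finset.sum_range_succ, Finset.sum_range_zero, Nat.factorial]
        push_cast
        ring
      rw [h2, Complex.norm_real, Complex.norm_real, Real.norm_eq_abs, Real.norm_eq_abs] at h1
      calc |Real.exp y - (1 + y + y ^ 2 / 2)| ≤ |y| ^ 3 * Real.exp |y| := h1
        _ ≤ (9 / 2 * N) ^ 3 * K0 := by gcongr
        _ = K0 * (9 / 2) ^ 3 * N ^ 3 := by ring
    have hr1 : |Real.exp y - 1| ≤ 9 / 2 * K0 * N := by
      have h1 := Complex.norm_exp_sub_sum_le_norm_mul_exp (y : ℂ) 1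
      have h2 : Complex.exp (y : ℂ) - ∑ k ∈ range 1, (y : ℂ) ^ k / (k.factorial : ℂ) =
          ((Real.exp y - 1 : ℝ) : ℂ) := by
        simp only [Finset.sum_range_succ, Finset.sum_range_zero, Nat.factorial]
        push_cast
        ring
      rw [h2, Complex.norm_real, Complex.norm_real, Real.norm_eq_abs, Real.norm_eq_abs] at h1
      calc |Real.exp y - 1| ≤ |y| ^ 1 * Real.exp |y| := h1
        _ ≤ (9 / 2 * N) ^ 1 * K0 := by gcongr
        _ = 9 / 2 * K0 * N := by ring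
    have hQ : QT m.T u q h = 3 * ((N : ℂ)) ^ 2 - 6 * m.T u h h / (q : ℂ) + 9 * (a : ℂ) ^ 2 := by
      unfold QT
      rw [← hN2, ← ha]
      push_cast
      ring
    have key : m.P (u + h) * ((Real.exp y : ℝ) : ℂ) / (q : ℂ) - (1 - QT m.T u q h / 2) =
        ((9 / 8 * N ^ 4 + 3 / 2 * a * y ^ 2 +
          (1 + 3 * a) * (Real.exp y - (1 + y + y ^ 2 / 2)) : ℝ) : ℂ) +
        3 * (m.T u h h / q) * ((Real.exp y - 1 : ℝ) : ℂ) + m.T h h h / q * ((Real.exp y : ℝ) : ℂ) := by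
      rw [hP, hQ]
      have hyc : (y : ℂ) = -3 * (a : ℂ) - 3 / 2 * (N : ℂ) ^ 2 := by
        rw [hy]
        push_cast
        ring
      push_cast
      rw [hyc]
      field_simp
      ring
    rw [key]
    have hw : ‖m.T u h h‖ ≤ C * N ^ 2 := by
      refine (hTb u h h).trans (le_of_eq ?_)
      rw [hu, Real.sqrt_one, ← hN]
      ring
    have hv : ‖m.T h h h‖ ≤ C * N ^ 3 := by
      refine (hTb h h h).trans (le_of_eq ?_)
      rw [← hN]
      ring
    have hN4 : N ^ 4 ≤ N ^ 3 := by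
      have : N ^ 4 = N ^ 3 * N := by ring
      rw [this]
      nlinarith [pow_nonneg hN0 3]
    have b1 : |9 / 8 * N ^ 4 + 3 / 2 * a * y ^ 2 +
        (1 + 3 * a) * (Real.exp y - (1 + y + y ^ 2 / 2))| ≤
        (9 / 8 + 3 / 2 * (9 / 2) ^ 2 + 4 * (K0 * (9 / 2) ^ 3)) * N ^ 3 := by
      have c1 : |9 / 8 * N ^ 4| ≤ 9 / 8 * N ^ 3 := by
        rw [abs_of_nonneg (by positivity)]
        linarith
      have c2 : |3 / 2 * a * y ^ 2| ≤ 3 / 2 * (9 / 2) ^ 2 * N ^ 3 := by
        rw [abs_mul, abs_mul, abs_pow, abs_of_pos (by norm_num : (0 : ℝ) < 3 / 2)]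
        calc 3 / 2 * |a| * |y| ^ 2 ≤ 3 / 2 * N * (9 / 2 * N) ^ 2 := by gcongr
          _ = 3 / 2 * (9 / 2) ^ 2 * N ^ 3 := by ring
      have c3 : |(1 + 3 * a) * (Real.exp y - (1 + y + y ^ 2 / 2))| ≤
          4 * (K0 * (9 / 2) ^ 3) * N ^ 3 := by
        rw [abs_mul]
        have d1 : |1 + 3 * a| ≤ 4 := by
          rw [abs_le] at haN ⊢
          constructor <;> linarith [haN.1, haN.2]
        calc |1 + 3 * a| * |Real.exp y - (1 + y + y ^ 2 / 2)| ≤
            4 * (K0 * (9 / 2) ^ 3 * N ^ 3) := by gcongr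
          _ = 4 * (K0 * (9 / 2) ^ 3) * N ^ 3 := by ring
      calc _ ≤ |9 / 8 * N ^ 4| + |3 / 2 * a * y ^ 2| +
            |(1 + 3 * a) * (Real.exp y - (1 + y + y ^ 2 / 2))| := abs_add_three _ _ _
        _ ≤ 9 / 8 * N ^ 3 + 3 / 2 * (9 / 2) ^ 2 * N ^ 3 + 4 * (K0 * (9 / 2) ^ 3) * N ^ 3 := by
            linarith
        _ = _ := by ring
    have b2 : ‖3 * (m.T u h h / q) * ((Real.exp y - 1 : ℝ) : ℂ)‖ ≤
        3 * (C / q) * (9 / 2 * K0) * N ^ 3 := by
      rw [norm_mul, norm_mul, norm_div, Complex.norm_real, Complex.norm_real, Real.norm_eq_abs,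
        Real.norm_eq_abs, abs_of_pos hq]
      have : ‖(3 : ℂ)‖ = 3 := by simp
      rw [this]
      calc 3 * (‖m.T u h h‖ / q) * |Real.exp y - 1| ≤
          3 * (C * N ^ 2 / q) * (9 / 2 * K0 * N) := by gcongr
        _ = 3 * (C / q) * (9 / 2 * K0) * N ^ 3 := by ring
    have b3 : ‖m.T h h h / q * ((Real.exp y : ℝ) : ℂ)‖ ≤ C / q * K0 * N ^ 3 := by
      rw [norm_mul, norm_div, Complex.norm_real, Complex.norm_real, Real.norm_eq_abs,
        Real.norm_eq_abs, abs_of_pos hq, abs_of_pos (Real.exp_pos _)]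
      calc ‖m.T h h h‖ / q * Real.exp y ≤ C * N ^ 3 / q * K0 := by gcongr
        _ = C / q * K0 * N ^ 3 := by ring
    refine (norm_add₃_le).trans ?_
    rw [Complex.norm_real, Real.norm_eq_abs]
    calc _ ≤ (9 / 8 + 3 / 2 * (9 / 2) ^ 2 + 4 * (K0 * (9 / 2) ^ 3)) * N ^ 3 +
          3 * (C / q) * (9 / 2 * K0) * N ^ 3 + C / q * K0 * N ^ 3 := by
            linarith [b1, b2, b3]
      _ = _ := by ring

end Pool.Agent.Helper14.T4
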