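import Pool.Agent.Helper15.T4.Stmts

set_option autoImplicit false

/-!
Module PLA of the project MP_e0a484_co (blueprint of helper15): the planted distribution is good.
-/

open Finset MeasureTheory Filter Topology

namespace Pool.Agent.Helper14.T4

open Pool.Agent.Helper15.T4

theorem PLA (hPLC : ST_PLC) (hPLB : ST_PLB) (hS1A : ST_S1A) : ST_PLA := by
  obtain ⟨c, hc, hlim, -⟩ := hS1A
  refine ⟨?_, ?_, ?_, ?_⟩
  · intro N M
    unfold WX
    exact div_nonneg (Nat.cast_nonneg _) (Finset.sum_nonneg fun M' _ => Nat.cast_nonneg _)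
  · have h1 := hlim.eventually_ne hc
    filter_upwards [h1] with N hN
    have h2 : (∑ M ∈ PM (univ : Finset (HE (2 * N))), (Xc M : ℝ)) ≠ 0 := by
      intro h
      apply hN
      have h3 : (∑ M ∈ PM (univ : Finset (HE (2 * N))), (Xc M : ℂ)) = 0 := by
        have h4 : ((∑ M ∈ PM (univ : Finset (HE (2 * N))), (Xc M : ℝ) : ℝ) : ℂ) = 0 := by
          rw [h]
          simp
        rw [← h4]
        push_cast
        rfl
      rw [h3, zero_div]
    unfold WX
    rw [← Finset.sum_div]
    exact div_self h2
  · intro I _ _ κ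
    exact hPLC I κ
  · exact hPLB

end Pool.Agent.Helper14.T4
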