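import Pool.Agent.Helper15.T4.Stmts

set_option autoImplicit false

/-!
Module POI of the project MP_e0a484_co (blueprint of helper15).
-/

open Finset MeasureTheory Filter Topology

namespace Pool.Agent.Helper14.T4

open Pool.Agent.Helper15.T4

theorem POI (hFM : ST_FM) (hMOM : ST_MOM) : ST_POI := by
  classical
  intro W τ hG hτ m z
  have hl : ∀ k : ℕ, 0 ≤ lam k := by
    intro k
    unfold lam
    positivity
  have h := hMOM (fun N => Finset (Sym2 (HE (2 * N)))) (fun N => PM (univ : Finset (HE (2 * N)))) W m
    (fun N M k => Zs m k M) (fun k => lam k * τ k) hG.nonneg (fun k => mul_nonneg (hl k) (hτ k))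
    (fun j => hFM W τ hG m j) z
  refine h.congr ?_
  intro N
  refine Finset.sum_congr ?_ (fun _ _ => rfl)
  ext M
  simp only [Finset.mem_filter]

end Pool.Agent.Helper14.T4
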